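import Pool.Agent.CU.AL
import Pool.Agent.CU.Good

/-!
# [CU-AL2] the values of the recursions (file CU/AL2.lean)

`rec_unique`, `rec_unique1`: the recursions of CU_PROOF (L6), (L7) determine `H S`; `H_value`, `H_value'`: the value is not zero if `GoodS u S a`.
-/

set_option autoImplicit false

open CM27
open scoped Classical

namespace CU

section
variable {R : Type*} [CommRing R] {ι : Type*} [DecidableEq ι] (a : ι → ι → R)

theorem AD_map {R' : Type*} [CommRing R'] (f : R →+* R') (d : ι → R) (T : Finset ι) :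
    f (AD a d T) = AD (fun i j => f (a i j)) (fun j => f (d j)) T := by
  unfold AD
  rw [RingHom.map_det]
  congr 1
  funext j k
  rw [RingHom.mapMatrix_apply, Matrix.map_apply]
  unfold AM
  split_ifs
  · rw [map_neg, map_add, map_sum]
  · rfl

/-- `∑_{j ∈ S} β_j ·` the principal minor at `j` of the Laplacian of `S` -/
noncomputable def AE (b : ι → R) (S : Finset ι) : R := ∑ j ∈ S, b j * AD a (a j) (S.erase j)

theorem AE_map {R' : Type*} [CommRing R'] (f : R →+* R') (b : ι → R) (S : Finset ι) :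
    f (AE a b S) = AE (fun i j => f (a i j)) (fun j => f (b j)) S := by
  unfold AE
  rw [map_sum]
  refine Finset.sum_congr rfl fun j _ => ?_
  rw [map_mul, AD_map]


theorem rec_unique (e : ι → R) (H : Finset ι → R) (U : Finset ι) (h0 : H ∅ = 1)
    (h : ∀ S ⊆ U, S.Nonempty → ∑ T ∈ S.powerset, H T * ∏ q ∈ S \ T, (e q + ∑ i ∈ T, a i q) = 0) :
    ∀ S ⊆ U, H S = AD a e S := by
  intro S
  induction S using Finset.strongInduction with
  | H S ih =>
    intro hS
    rcases S.eq_empty_or_nonempty with rfl | hne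
    · rw [h0, AD_empty]
    · have h1 := h S hS hne
      have h2 := sum_AD a S 0 e
      have h3 : ∏ q ∈ S, (-(0 : ι → R) q) = 0 := by
        obtain ⟨i, hi⟩ := hne
        exact Finset.prod_eq_zero hi neg_zero
      rw [h3] at h2
      have h4 : ∀ T : Finset ι, AD a (fun j => (0 : ι → R) j + e j) T = AD a e T := fun T =>
        AD_congr a fun j _ => by rw [Pi.zero_apply, zero_add]
      simp only [h4] at h2
      have hmem : S ∈ S.powerset := Finset.mem_powerset_self S
      rw [← Finset.add_sum_erase _ _ hmem, Finset.sdiff_self, Finset.prod_empty, mul_one] at h1 h2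
      have h5 : ∑ T ∈ S.powerset.erase S, H T * ∏ q ∈ S \ T, (e q + ∑ i ∈ T, a i q) =
          ∑ T ∈ S.powerset.erase S, AD a e T * ∏ q ∈ S \ T, (e q + ∑ i ∈ T, a i q) := by
        refine Finset.sum_congr rfl fun T hT => ?_
        rw [Finset.mem_erase, Finset.mem_powerset] at hT
        rw [ih T (lt_of_le_of_ne hT.2 hT.1) (hT.2.trans hS)]
      rw [h5] at h1
      linear_combination h1 - h2

theorem sum_AE_one (S : Finset ι) {j : ι} (hj : j ∈ S) :
    ∑ T ∈ S.powerset, (if j ∈ T then AD a (a j) (T.erase j) else 0) * ∏ q ∈ S \ T, ∑ i ∈ T, a i q =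
      if S.card = 1 then 1 else 0 := by
  have h1 := sum_AD a S (Pi.single j 1) 0
  have h2 : ∏ q ∈ S, (-(Pi.single j 1 : ι → R) q) = if S.card = 1 then -1 else 0 := by
    by_cases hc : S.card = 1
    · obtain ⟨i, hi⟩ := Finset.card_eq_one.1 hc
      rw [if_pos hc, hi, Finset.prod_singleton]
      rw [hi, Finset.mem_singleton] at hj
      rw [hj, Pi.single_eq_same]
    · rw [if_neg hc]
      have h3 : ∃ i ∈ S, i ≠ j := by
        by_contra h4
        push Not at h4
        exact hc (Finset.card_eq_one.2 ⟨j, Finset.eq_singleton_iff_unique_mem.2 ⟨hj, h4⟩⟩)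
      obtain ⟨i, hi, hij⟩ := h3
      exact Finset.prod_eq_zero hi (by rw [Pi.single_eq_of_ne hij 1, neg_zero])
  rw [h2] at h1
  have h1' : (if S.card = 1 then (1 : R) else 0) = -(if S.card = 1 then (-1 : R) else 0) := by
    split_ifs <;> ring
  rw [h1', ← h1, ← Finset.sum_neg_distrib]
  refine Finset.sum_congr rfl fun T hT => ?_
  rw [Finset.mem_powerset] at hT
  have h5 : ∏ q ∈ S \ T, ((0 : ι → R) q + ∑ i ∈ T, a i q) = ∏ q ∈ S \ T, ∑ i ∈ T, a i q :=
    Finset.prod_congr rfl fun q _ => by rw [Pi.zero_apply, zero_add]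
  rw [h5]
  by_cases hjT : j ∈ T
  · rw [if_pos hjT, ← neg_mul]
    congr 1
    have h6 := AD_insert a (fun l => (Pi.single j 1 : ι → R) l + (0 : ι → R) l)
      (Finset.notMem_erase j T)
    rw [Finset.insert_erase hjT] at h6
    rw [h6, AD_zero a ⟨j, hjT⟩, zero_sub]
    · rw [Pi.single_eq_same, Pi.zero_apply, add_zero, one_mul, neg_neg]
      refine AD_congr a fun l hl => ?_
      rw [Pi.single_eq_of_ne (Finset.ne_of_mem_erase hl), Pi.zero_apply, add_zero, zero_add]
    · intro l hl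
      by_cases hlj : l = j
      · rw [hlj, Function.update_self]
      · rw [Function.update_of_ne hlj, Pi.single_eq_of_ne hlj, Pi.zero_apply, add_zero]
  · rw [if_neg hjT, zero_mul]
    rcases T.eq_empty_or_nonempty with rfl | hne
    · rw [Finset.prod_eq_zero (i := j) (Finset.mem_sdiff.2 ⟨hj, hjT⟩) Finset.sum_empty, mul_zero, neg_zero]
    · rw [AD_zero a hne, zero_mul, neg_zero]
      intro l hl
      have hlj : l ≠ j := fun h => hjT (h ▸ hl)
      rw [Pi.single_eq_of_ne hlj, Pi.zero_apply, add_zero]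

theorem sum_AE (b : ι → R) (S : Finset ι) :
    ∑ T ∈ S.powerset, AE a b T * ∏ q ∈ S \ T, ∑ i ∈ T, a i q =
      if S.card = 1 then ∑ j ∈ S, b j else 0 := by
  have h1 : ∀ T ∈ S.powerset, AE a b T * ∏ q ∈ S \ T, ∑ i ∈ T, a i q =
      ∑ j ∈ S, b j * ((if j ∈ T then AD a (a j) (T.erase j) else 0) *
        ∏ q ∈ S \ T, ∑ i ∈ T, a i q) := by
    intro T hT
    rw [Finset.mem_powerset] at hT
    unfold AE
    rw [Finset.sum_mul]
    have h2 : ∑ j ∈ S, b j * ((if j ∈ T then AD a (a j) (T.erase j) else 0) *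
        ∏ q ∈ S \ T, ∑ i ∈ T, a i q) = ∑ j ∈ T, b j * ((if j ∈ T then AD a (a j) (T.erase j) else 0) *
        ∏ q ∈ S \ T, ∑ i ∈ T, a i q) := by
      refine (Finset.sum_subset hT fun j _ hj => ?_).symm
      rw [if_neg hj, zero_mul, mul_zero]
    rw [h2]
    refine Finset.sum_congr rfl fun j hj => ?_
    rw [if_pos hj, mul_assoc]
  rw [Finset.sum_congr rfl h1, Finset.sum_comm]
  have h3 : ∀ j ∈ S, ∑ T ∈ S.powerset, b j * ((if j ∈ T then AD a (a j) (T.erase j) else 0) *
        ∏ q ∈ S \ T, ∑ i ∈ T, a i q) = b j * if S.card = 1 then 1 else 0 := by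
    intro j hj
    rw [← Finset.mul_sum, sum_AE_one a S hj]
  rw [Finset.sum_congr rfl h3]
  split_ifs
  · exact Finset.sum_congr rfl fun j _ => mul_one _
  · exact Finset.sum_eq_zero fun j _ => mul_zero _

theorem rec_unique1 (b : ι → R) (H : Finset ι → R) (U : Finset ι)
    (h : ∀ S ⊆ U, S.Nonempty → ∑ T ∈ S.powerset.erase ∅, H T * ∏ q ∈ S \ T, ∑ i ∈ T, a i q =
      if S.card = 1 then ∑ j ∈ S, b j else 0) :
    ∀ S ⊆ U, S.Nonempty → H S = AE a b S := by
  intro S
  induction S using Finset.strongInduction with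
  | H S ih =>
    intro hS hne
    have h1 := h S hS hne
    have h2 := sum_AE a b S
    have h0 : AE a b ∅ = 0 := by
      unfold AE
      rw [Finset.sum_empty]
    rw [← Finset.add_sum_erase _ _ (Finset.empty_mem_powerset S), h0, zero_mul, zero_add, ← h1] at h2
    have hmem : S ∈ S.powerset.erase ∅ :=
      Finset.mem_erase.2 ⟨hne.ne_empty, Finset.mem_powerset_self S⟩
    rw [← Finset.add_sum_erase _ _ hmem, ← Finset.add_sum_erase _ _ hmem, Finset.sdiff_self,
      Finset.prod_empty, mul_one, mul_one] at h2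
    have h5 : ∑ T ∈ (S.powerset.erase ∅).erase S, H T * ∏ q ∈ S \ T, (∑ i ∈ T, a i q) =
        ∑ T ∈ (S.powerset.erase ∅).erase S, AE a b T * ∏ q ∈ S \ T, (∑ i ∈ T, a i q) := by
      refine Finset.sum_congr rfl fun T hT => ?_
      rw [Finset.mem_erase, Finset.mem_erase, Finset.mem_powerset] at hT
      rw [ih T (lt_of_le_of_ne hT.2.2 hT.1) (hT.2.2.trans hS) (Finset.nonempty_iff_ne_empty.2 hT.2.1)]
    rw [h5] at h2
    linear_combination -h2


/-- the cofactor -/
theorem adj_diag {S : Finset ι} {j : ι} (hj : j ∈ S) :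
    (AM a 0 S).adjugate ⟨j, hj⟩ ⟨j, hj⟩ = AD a (a j) (S.erase j) := by
  rw [Matrix.adjugate_apply]
  have h1 := AD_insert a (fun l => (Pi.single j 1 : ι → R) l) (Finset.notMem_erase j S)
  rw [Finset.insert_erase hj] at h1
  have h2 : AD a (Function.update (fun l => (Pi.single j 1 : ι → R) l) j 0) S = (AM a 0 S).det := by
    refine AD_congr a fun l _ => ?_
    by_cases hlj : l = j
    · rw [hlj, Function.update_self, Pi.zero_apply]
    · rw [Function.update_of_ne hlj, Pi.single_eq_of_ne hlj, Pi.zero_apply]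
  have h3 : AD a (fun l => (Pi.single j 1 : ι → R) l + a j l) (S.erase j) = AD a (a j) (S.erase j) := by
    refine AD_congr a fun l hl => ?_
    rw [Pi.single_eq_of_ne (Finset.ne_of_mem_erase hl), zero_add]
  rw [h2, h3, Pi.single_eq_same, one_mul] at h1
  have h4 : AM a (fun l => (Pi.single j 1 : ι → R) l) S =
      (AM a 0 S).updateRow ⟨j, hj⟩ ((AM a 0 S) ⟨j, hj⟩ + (-1 : R) • (Pi.single ⟨j, hj⟩ 1 : _ → R)) := by
    funext l k
    rw [Matrix.updateRow_apply]
    by_cases hl : l = ⟨j, hj⟩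
    · rw [if_pos hl, hl, Pi.add_apply, Pi.smul_apply, smul_eq_mul]
      unfold AM
      by_cases hk : (⟨j, hj⟩ : S) = k
      · rw [if_pos hk, if_pos hk, ← hk, Pi.single_eq_same]
        change -((Pi.single j 1 : ι → R) j + _) = -((0 : ι → R) j + _) + _
        rw [Pi.single_eq_same, Pi.zero_apply]
        ring
      · rw [if_neg hk, if_neg hk, Pi.single_eq_of_ne (Ne.symm hk), mul_zero, add_zero]
    · rw [if_neg hl]
      have h5 : (l : ι) ≠ j := fun h => hl (Subtype.ext h)
      unfold AM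
      simp only [Pi.single_eq_of_ne h5, Pi.zero_apply]
  unfold AD at h1
  rw [h4, Matrix.det_updateRow_add, Matrix.updateRow_eq_self, Matrix.det_updateRow_smul] at h1
  unfold AD
  linear_combination -h1

theorem AM_one {S : Finset ι} : (AM a 0 S).mulVec (fun _ => 1) = 0 := by
  funext j
  rw [Matrix.mulVec, dotProduct]
  simp only [mul_one, Pi.zero_apply]
  have h2 : ∑ k : S, AM a 0 S j k = AM a 0 S j j + ∑ k ∈ Finset.univ.erase j, AM a 0 S j k :=
    (Finset.add_sum_erase _ _ (Finset.mem_univ j)).symm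
  have h3 : ∑ k ∈ Finset.univ.erase j, AM a 0 S j k = ∑ l ∈ S.erase j, a l j := by
    refine Finset.sum_bij (fun k _ => (k : ι)) ?_ ?_ ?_ ?_
    · intro k hk
      rw [Finset.mem_erase] at hk ⊢
      exact ⟨fun h => hk.1 (Subtype.ext h), k.2⟩
    · intro k _ k' _ h
      exact Subtype.ext h
    · intro l hl
      rw [Finset.mem_erase] at hl
      exact ⟨⟨l, hl.2⟩, by
        rw [Finset.mem_erase]
        exact ⟨fun h => hl.1 (congrArg Subtype.val h), Finset.mem_univ _⟩, rfl⟩
    · intro k hk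
      rw [Finset.mem_erase] at hk
      unfold AM
      rw [if_neg (Ne.symm hk.1)]
  rw [h2, h3]
  unfold AM
  rw [if_pos rfl, Pi.zero_apply, zero_add]
  ring

end

section
variable (u : Eis) (S : Finset Eis) (a : Eis → ℕ)

/-- the arcs -/
noncomputable def arc (k j : Eis) : ZMod 3 := (a k : ZMod 3) * sy k j

/-- the relation with the matrix `LM` -/
theorem LM_eq_AM (j k : S) : LM u S a j k = -(a j : ZMod 3) * AM (arc a) (fun j => sy u j) S j k := by
  unfold LM AM arc
  split_ifs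
  · rw [neg_mul_neg, mul_add, Finset.mul_sum]
    congr 1
    refine Finset.sum_congr rfl fun l _ => ?_
    ring
  · ring

theorem al2_ne {x : ℕ} (h : x = 1 ∨ x = 2) : (x : ZMod 3) ≠ 0 ∧ (x : ZMod 3) * x = 1 := by
  rcases h with rfl | rfl
  · decide
  · decide

theorem LM_mulVec (ha : ∀ p ∈ S, a p = 1 ∨ a p = 2) (z : S → ZMod 3)
    (hz : (AM (arc a) (fun j => sy u j) S).mulVec z = 0) : (LM u S a).mulVec z = 0 := by
  funext j
  have h1 := congrFun hz j
  rw [Matrix.mulVec, dotProduct, Pi.zero_apply] at h1 ⊢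
  simp only [LM_eq_AM, mul_assoc]
  rw [← Finset.mul_sum, h1, mul_zero]

end

section
variable {u : Eis} {S : Finset Eis} {a : Eis → ℕ} (h : GoodS u S a)

include h in
theorem det_ne (hu : ¬ (u = 1 ∨ u = -1)) : AD (arc a) (fun j => sy u j) S ≠ 0 := by
  intro h3
  unfold AD at h3
  obtain ⟨z, hz, hz'⟩ := Matrix.exists_mulVec_eq_zero_iff.2 h3
  exact hz (h.2.1 hu z (LM_mulVec u S a h.1.2.1 z hz'))

include h in
/-- the principal minors -/
theorem minor_ne (hu : u = 1 ∨ u = -1) (h0 : ∀ p ∈ S, sy u p = 0)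
    (hsym : ∀ p ∈ S, ∀ q ∈ S, p ≠ q → sy p q = sy q p) {j : Eis} (hj : j ∈ S) :
    AD (arc a) (arc a j) (S.erase j) ≠ 0 := by
  intro hd0
  unfold AD at hd0
  obtain ⟨z', hz', hM⟩ := Matrix.exists_mulVec_eq_zero_iff.2 hd0
  set z : S → ZMod 3 := fun k => if hk : (k : Eis) ∈ S.erase j then z' ⟨k, hk⟩ else 0 with hz
  have hzj : z ⟨j, hj⟩ = 0 := by
    rw [hz]
    exact dif_neg (Finset.notMem_erase j S)
  have hzk : ∀ k : (S.erase j : Finset Eis), z ⟨k, Finset.mem_of_mem_erase k.2⟩ = z' k := by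
    intro k
    rw [hz]
    exact dif_pos k.2
  have hsum : ∀ f : S → ZMod 3, ∑ k : S, f k = f ⟨j, hj⟩ +
      ∑ k : (S.erase j : Finset Eis), f ⟨k, Finset.mem_of_mem_erase k.2⟩ := by
    intro f
    rw [← Finset.add_sum_erase _ _ (Finset.mem_univ (⟨j, hj⟩ : S))]
    congr 1
    refine (Finset.sum_bij (fun (k : (S.erase j : Finset Eis)) _ =>
      (⟨k, Finset.mem_of_mem_erase k.2⟩ : S)) ?_ ?_ ?_ ?_).symm
    · intro k _
      rw [Finset.mem_erase]
      exact ⟨fun h => Finset.ne_of_mem_erase k.2 (congrArg Subtype.val h), Finset.mem_univ _⟩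
    · intro k _ k' _ h
      exact Subtype.ext (congrArg (fun t : S => (t : Eis)) h)
    · intro k hk
      rw [Finset.mem_erase] at hk
      exact ⟨⟨k, Finset.mem_erase.2 ⟨fun h => hk.1 (Subtype.ext h), k.2⟩⟩, Finset.mem_univ _, rfl⟩
    · intro k _
      rfl
  have hAM0 : ∀ j k : S, AM (arc a) (fun j => sy u j) S j k = AM (arc a) 0 S j k := by
    intro j k
    unfold AM
    simp only [h0 j j.2, Pi.zero_apply]
  have hrow : ∀ k : (S.erase j : Finset Eis),
      (AM (arc a) 0 S).mulVec z ⟨k, Finset.mem_of_mem_erase k.2⟩ = 0 := by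
    intro k
    have h1 := congrFun hM k
    rw [Matrix.mulVec, dotProduct, Pi.zero_apply] at h1
    rw [Matrix.mulVec, dotProduct, hsum, hzj, mul_zero, zero_add, ← h1]
    refine Finset.sum_congr rfl fun l _ => ?_
    rw [hzk]
    congr 1
    unfold AM
    by_cases hkl : k = l
    · rw [if_pos hkl, if_pos (by rw [hkl]), Pi.zero_apply, zero_add, Finset.erase_right_comm]
      change -(∑ m ∈ S.erase (k : Eis), arc a m k) = _
      have hjk : j ∈ S.erase (k : Eis) := Finset.mem_erase.2 ⟨(Finset.ne_of_mem_erase k.2).symm, hj⟩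
      rw [← Finset.add_sum_erase _ _ hjk]
    · rw [if_neg hkl, if_neg (fun h => hkl (Subtype.ext (congrArg (fun t : S => (t : Eis)) h)))]
  -- the column sums of `LM` vanish
  have hLrow : ∀ k : (S.erase j : Finset Eis),
      (LM u S a).mulVec z ⟨k, Finset.mem_of_mem_erase k.2⟩ = 0 := by
    intro k
    have h1 := hrow k
    rw [Matrix.mulVec, dotProduct] at h1 ⊢
    simp only [LM_eq_AM, mul_assoc, hAM0]
    rw [← Finset.mul_sum, h1, mul_zero]
  have hcol : ∀ k : S, ∑ l : S, LM u S a l k = 0 := by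
    intro k
    rw [← Finset.add_sum_erase _ _ (Finset.mem_univ k)]
    have h3 : ∑ l ∈ Finset.univ.erase k, LM u S a l k =
        ∑ l ∈ S.erase k, -((a k : ZMod 3) * a l * sy l k) := by
      refine Finset.sum_bij (fun k _ => (k : Eis)) ?_ ?_ ?_ ?_
      · intro l hl
        rw [Finset.mem_erase] at hl ⊢
        exact ⟨fun h => hl.1 (Subtype.ext h), l.2⟩
      · intro l _ l' _ h
        exact Subtype.ext h
      · intro l hl
        rw [Finset.mem_erase] at hl
        exact ⟨⟨l, hl.2⟩, by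
          rw [Finset.mem_erase]
          exact ⟨fun h => hl.1 (congrArg Subtype.val h), Finset.mem_univ _⟩, rfl⟩
      · intro l hl
        rw [Finset.mem_erase] at hl
        unfold LM
        rw [if_neg hl.1, hsym k k.2 l l.2 fun h => hl.1 (Subtype.ext h.symm)]
        ring
    rw [h3]
    unfold LM
    rw [if_pos rfl, h0 k k.2, mul_zero, zero_add, Finset.sum_neg_distrib]
    exact add_neg_cancel _
  have hall : ∑ l : S, (LM u S a).mulVec z l = 0 := by
    simp only [Matrix.mulVec, dotProduct]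
    rw [Finset.sum_comm]
    refine Finset.sum_eq_zero fun k _ => ?_
    rw [← Finset.sum_mul, hcol k, zero_mul]
  have hzero : (LM u S a).mulVec z = 0 := by
    funext l
    rw [Pi.zero_apply]
    by_cases hl : (l : Eis) = j
    · rw [hsum, Finset.sum_eq_zero fun k _ => hLrow k, add_zero] at hall
      have : l = ⟨j, hj⟩ := Subtype.ext hl
      rw [this]
      exact hall
    · exact hLrow ⟨l, Finset.mem_erase.2 ⟨hl, l.2⟩⟩
  obtain ⟨c, hc⟩ := (h.2.2 hu).2 z hzero
  apply hz'
  funext k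
  rw [← hzk k, hc, ← hc ⟨j, hj⟩, hzj]
  rfl

include h in
/-- the sum of the minors -/
theorem AE_ne (hu : u = 1 ∨ u = -1) (h0 : ∀ p ∈ S, sy u p = 0)
    (hsym : ∀ p ∈ S, ∀ q ∈ S, p ≠ q → sy p q = sy q p) :
    AE (arc a) (fun j => sy om j) S ≠ 0 := by
  obtain ⟨hb, hker⟩ := h.2.2 hu
  have hAM0 : ∀ j k : S, AM (arc a) (fun j => sy u j) S j k = AM (arc a) 0 S j k := by
    intro j k
    unfold AM
    simp only [h0 j j.2, Pi.zero_apply]
  have hLM : ∀ j k : S, LM u S a j k = -(a j : ZMod 3) * AM (arc a) 0 S j k := by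
    intro j k
    rw [LM_eq_AM, hAM0]
  have hsymL : ∀ j k : S, LM u S a j k = LM u S a k j := by
    intro j k
    unfold LM
    by_cases hjk : j = k
    · rw [hjk]
    · rw [if_neg hjk, if_neg (Ne.symm hjk), hsym k k.2 j j.2 fun h => hjk (Subtype.ext h.symm)]
      ring
  have hne : S.Nonempty := by
    rw [Finset.nonempty_iff_ne_empty]
    rintro rfl
    rw [Finset.sum_empty] at hb
    exact hb rfl
  obtain ⟨i, hi⟩ := hne
  set N := (AM (arc a) 0 S).adjugate with hN
  have hdet : (AM (arc a) 0 S).det = 0 := AD_zero (arc a) ⟨i, hi⟩ fun _ _ => rfl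
  -- the columns
  have hcolN : ∀ k : S, ∃ c : ZMod 3, ∀ j : S, N j k = c := by
    intro k
    apply hker
    funext j
    have h1 : (AM (arc a) 0 S * N) j k = 0 := by
      rw [hN, Matrix.mul_adjugate, hdet, zero_smul, Matrix.zero_apply]
    rw [Matrix.mul_apply] at h1
    rw [Matrix.mulVec, dotProduct, Pi.zero_apply]
    simp only [hLM, mul_assoc]
    rw [← Finset.mul_sum, h1, mul_zero]
  -- the rows
  have hrowN : ∀ j : S, ∃ c : ZMod 3, ∀ k : S, N j k * (a k : ZMod 3) = c := by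
    intro j
    apply hker
    funext k
    have h1 : (N * AM (arc a) 0 S) j k = 0 := by
      rw [hN, Matrix.adjugate_mul, hdet, zero_smul, Matrix.zero_apply]
    rw [Matrix.mul_apply] at h1
    rw [Matrix.mulVec, dotProduct, Pi.zero_apply]
    have h2 : ∀ l : S, LM u S a k l * (N j l * (a l : ZMod 3)) = -(N j l * AM (arc a) 0 S l k) := by
      intro l
      rw [hsymL, hLM]
      have h3 := (al2_ne (h.1.2.1 l l.2)).2
      linear_combination (-(N j l * AM (arc a) 0 S l k)) * h3
    simp only [h2]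
    rw [Finset.sum_neg_distrib, h1, neg_zero]
  obtain ⟨c, hc⟩ := hrowN ⟨i, hi⟩
  have hval : ∀ j : S, N j j = c * a j := by
    intro j
    obtain ⟨c', hc'⟩ := hcolN j
    have h3 := (al2_ne (h.1.2.1 j j.2)).2
    rw [hc' j, ← hc' ⟨i, hi⟩, ← hc j, mul_assoc, h3, mul_one]
  have hc0 : c ≠ 0 := by
    rintro rfl
    have h1 := hval ⟨i, hi⟩
    rw [hN, adj_diag, zero_mul] at h1
    exact minor_ne h hu h0 hsym hi h1
  have hsum : AE (arc a) (fun j => sy om j) S = c * ∑ p ∈ S, (a p : ZMod 3) * sy om p := by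
    unfold AE
    rw [Finset.mul_sum]
    refine Finset.sum_congr rfl fun j hj => ?_
    have h1 := hval ⟨j, hj⟩
    rw [hN, adj_diag] at h1
    rw [h1]
    ring
  rw [hsum]
  exact mul_ne_zero hc0 hb

variable {R : Type*} [CommRing R] [CharP R 3]

/-- a symbol as an element of a ring of characteristic 3 -/
def sc (x : ZMod 3) : R := ZMod.castHom (dvd_refl 3) R x

omit h in
theorem al2_sign (n : ℕ) : ((-1 : R) ^ n) * (-1) ^ n = 1 := by
  rw [← mul_pow]
  norm_num

include h in
/-- the case `u ≠ ± 1` -/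
theorem H_value (hu : ¬ (u = 1 ∨ u = -1)) (H : Finset Eis → R) (h0 : H ∅ = 1)
    (hrec : ∀ U ⊆ S, U.Nonempty → ∑ T ∈ U.powerset, (-1) ^ T.card * H T *
      ∏ q ∈ U \ T, (sc (sy u q) + ∑ i ∈ T, sc ((a i : ZMod 3) * sy i q)) = 0) :
    ∃ c : ZMod 3, c ≠ 0 ∧ H S = sc c := by
  have h1 := rec_unique (R := R) (fun k j => sc (arc a k j)) (fun j => sc (sy u j))
    (fun T => (-1) ^ T.card * H T) S (by rw [Finset.card_empty, pow_zero, one_mul, h0]) hrec S
    (Finset.Subset.refl S)
  have h3 := AD_map (arc a) (ZMod.castHom (dvd_refl 3) R) (fun j => sy u j) S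
  refine ⟨(-1) ^ S.card * AD (arc a) (fun j => sy u j) S, mul_ne_zero (pow_ne_zero _ (by decide)) (det_ne h hu), ?_⟩
  unfold sc
  rw [map_mul, map_pow, map_neg, map_one, h3]
  have h4 : (-1 : R) ^ S.card * ((-1) ^ S.card * H S) = (-1) ^ S.card *
      AD (fun k j => sc (arc a k j)) (fun j => sc (sy u j)) S := by rw [← h1]
  rw [← mul_assoc, al2_sign, one_mul] at h4
  rw [h4]
  rfl

include h in
/-- the case `u = ± 1` -/
theorem H_value' (hu : u = 1 ∨ u = -1) (h0 : ∀ p ∈ S, sy u p = 0)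
    (hsym : ∀ p ∈ S, ∀ q ∈ S, p ≠ q → sy p q = sy q p) (μ : R) (H : Finset Eis → R)
    (hrec : ∀ U ⊆ S, U.Nonempty → ∑ T ∈ U.powerset.erase ∅, (-1) ^ T.card * H T *
      ∏ q ∈ U \ T, ∑ i ∈ T, sc ((a i : ZMod 3) * sy i q) =
        if U.card = 1 then -(μ * ∑ j ∈ U, sc (sy om j)) else 0) :
    ∃ c : ZMod 3, c ≠ 0 ∧ H S = μ * sc c := by
  have hb := (h.2.2 hu).1
  have hne : S.Nonempty := by
    rw [Finset.nonempty_iff_ne_empty]
    rintro rfl
    rw [Finset.sum_empty] at hb
    exact hb rfl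
  have h1 := rec_unique1 (R := R) (fun k j => sc (arc a k j)) (fun j => -(μ * sc (sy om j)))
    (fun T => (-1) ^ T.card * H T) S (by
      intro U hU hne
      rw [show (∑ T ∈ U.powerset.erase ∅, (-1) ^ T.card * H T * ∏ q ∈ U \ T, ∑ i ∈ T, sc (arc a i q)) =
        ∑ T ∈ U.powerset.erase ∅, (-1) ^ T.card * H T *
      ∏ q ∈ U \ T, ∑ i ∈ T, sc ((a i : ZMod 3) * sy i q) from rfl, hrec U hU hne]
      split_ifs
      · rw [Finset.mul_sum, Finset.sum_neg_distrib]
      · rfl) S (Finset.Subset.refl S) hne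
  have h2 : AE (fun k j => sc (arc a k j)) (fun j => -(μ * sc (sy om j))) S =
      -(μ * AE (fun k j => sc (R := R) (arc a k j)) (fun j => sc (sy om j)) S) := by
    unfold AE
    rw [Finset.mul_sum, ← Finset.sum_neg_distrib]
    refine Finset.sum_congr rfl fun j _ => ?_
    ring
  have h3 := AE_map (arc a) (ZMod.castHom (dvd_refl 3) R) (fun j => sy om j) S
  refine ⟨-((-1) ^ S.card * AE (arc a) (fun j => sy om j) S), neg_ne_zero.2
    (mul_ne_zero (pow_ne_zero _ (by decide)) (AE_ne h hu h0 hsym)), ?_⟩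
  have h4 : (-1 : R) ^ S.card * ((-1) ^ S.card * H S) = (-1) ^ S.card *
      -(μ * AE (fun k j => sc (R := R) (arc a k j)) (fun j => sc (sy om j)) S) := by rw [← h2, ← h1]
  rw [← mul_assoc, al2_sign, one_mul] at h4
  rw [h4]
  unfold sc
  rw [map_neg, map_mul, map_pow, map_neg, map_one, h3]
  ring

end

end CU
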