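import Pool.Agent.CU.P9
import Pool.Agent.CU.P11

set_option autoImplicit false

open scoped Classical
open Finset
open CM27

/-!
# [CU-P12] more than half of the cube-free `D` prime to `3` are good
-/

namespace CU

theorem p12_un (x : Fin 3 × Bool) : un x = om ^ (x.1 : ℕ) ∨ un x = -om ^ (x.1 : ℕ) := by
  unfold un
  split_ifs
  · right
    rfl
  · left
    rfl

/-- [CU-P12a] PROOF. `dens_RT` (`un x = ± om ^ x.1`). For `x.1 ≠ 0` the condition `(x.1 : ZMod 3) = 0 → ..` is void. For `x.1 = 0`: `beta R T ≠ 0` iff `∑_{v ∈ T} g none v ≠ c := -2 ∑_{ρ ∈ R} [ω/ρ]`, and `equi` gives `#{T : beta ≠ 0} ≥ (2/3) #sb - ε X`.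
Sum over the six `x`: `638/1000 (4 + 2 * 2/3) = 638/1000 * 16/3`. -/
theorem dens_R (R : Finset OP) : ∀ ε : ℝ, 0 < ε → ∃ X0 : ℕ, ∀ X : ℕ, X0 ≤ X →
    638 / 1000 * (16 / 3) * (((arR R).sb X).card : ℝ) - ε * X ≤
      ∑ x : Fin 3 × Bool, ((((arR R).sb X).filter fun T => GoodS (un x) (toS R T) (expo R)).card : ℝ) := by
  intro ε hε
  have H := fun x : Fin 3 × Bool => dens_RT R (p12_un x) (ε / 12) (by positivity)
  choose Y hY using H
  obtain ⟨X1, h1⟩ := (arR R).equi none (-(2 * ∑ ρ ∈ R, sy om ρ.1)) ε hε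
  refine ⟨X1 + ∑ x, Y x, fun X hX => ?_⟩
  have hYx : ∀ x, Y x ≤ X := fun x => by
    have := Finset.single_le_sum (f := Y) (fun i _ => Nat.zero_le _) (Finset.mem_univ x)
    omega
  have h2 := h1 X (by omega)
  have hx0 : (0 : ℝ) ≤ X := Nat.cast_nonneg X
  set s : ℝ := (((arR R).sb X).card : ℝ) with hs
  -- the number of the `T` with `beta ≠ 0`
  have hbeta : 2 / 3 * s - ε / 3 * X ≤ ((((arR R).sb X).filter fun T => beta R T ≠ 0).card : ℝ) := by
    have e1 : ((arR R).sb X).filter (fun T => beta R T = 0) =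
        ((arR R).sb X).filter (fun T => ∑ v ∈ T, (arR R).g none v = -(2 * ∑ ρ ∈ R, sy om ρ.1)) := by
      refine Finset.filter_congr fun T _ => ?_
      have : beta R T = ∑ v ∈ T, (arR R).g none v + 2 * ∑ ρ ∈ R, sy om ρ.1 := rfl
      rw [this]
      exact ⟨fun h => eq_neg_of_add_eq_zero_left h, fun h => by rw [h]; ring⟩
    have e2 : (((arR R).sb X).filter fun T => beta R T = 0).card +
        (((arR R).sb X).filter fun T => ¬ beta R T = 0).card = ((arR R).sb X).card :=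
      Finset.card_filter_add_card_filter_not _
    rw [← e1] at h2
    have e3 : ((((arR R).sb X).filter fun T => beta R T = 0).card : ℝ) +
        ((((arR R).sb X).filter fun T => ¬ beta R T = 0).card : ℝ) = s := by
      rw [hs]
      exact_mod_cast e2
    rw [abs_le] at h2
    have h3 := h2.2
    have e4 : ((((arR R).sb X).filter fun T => beta R T ≠ 0).card : ℝ) =
      ((((arR R).sb X).filter fun T => ¬ beta R T = 0).card : ℝ) := rfl
    rw [e4]
    linarith
  have hone : ∀ x : Fin 3 × Bool, (if x.1 = 0 then 638 / 1000 * (2 / 3 * s - ε / 3 * X) - ε / 12 * X else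
      638 / 1000 * s - ε / 12 * X) ≤
      ((((arR R).sb X).filter fun T => GoodS (un x) (toS R T) (expo R)).card : ℝ) := by
    intro x
    have h3 := hY x X (hYx x)
    split_ifs with hx
    · have e1 : (((arR R).sb X).filter fun T => (((x.1 : Fin 3) : ℕ) : ZMod 3) = 0 → beta R T ≠ 0) =
          ((arR R).sb X).filter fun T => beta R T ≠ 0 := by
        refine Finset.filter_congr fun T _ => ⟨fun h => h ?_, fun h _ => h⟩
        rw [hx]
        simp
      rw [e1] at h3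
      have := mul_le_mul_of_nonneg_left hbeta (by norm_num : (0 : ℝ) ≤ 638 / 1000)
      linarith
    · have e1 : (((arR R).sb X).filter fun T => (((x.1 : Fin 3) : ℕ) : ZMod 3) = 0 → beta R T ≠ 0) =
          (arR R).sb X := by
        refine Finset.filter_true_of_mem fun T _ h => ?_
        exfalso
        apply hx
        have h0 : ∀ y : Fin 3, ((y : ℕ) : ZMod 3) = 0 → y = 0 := by decide
        exact h0 _ h
      rw [e1] at h3
      linarith
  have hsum := Finset.sum_le_sum fun x (_ : x ∈ (Finset.univ : Finset (Fin 3 × Bool))) => hone x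
  have e5 : ∑ x : Fin 3 × Bool, (if x.1 = 0 then 638 / 1000 * (2 / 3 * s - ε / 3 * X) - ε / 12 * X else
      638 / 1000 * s - ε / 12 * X) = 2 * (638 / 1000 * (2 / 3 * s - ε / 3 * X) - ε / 12 * X) +
        4 * (638 / 1000 * s - ε / 12 * X) := by
    rw [Fintype.sum_prod_type, Fin.sum_univ_three]
    simp only [Fintype.sum_bool]
    rw [if_pos trivial, if_neg (by decide), if_neg (by decide)]
    ring
  rw [e5] at hsum
  have hεx : 0 ≤ ε * (X : ℝ) := mul_nonneg hε.le hx0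
  linarith

/-- [CU-P12b] the tail. PROOF. `summable_R` (`summable_iff_vanishing_norm` or `Summable.vanishing`): there is a finite `F` with `∑_{R ∈ G} 1/N(R)² ≤ ε / (6 C)` for every finite `G` disjoint from `F`; `card_sb_le`, `ncard_cubeD_le`:
`#sb_R (X / N(R)²) ≤ C X / N(R)²`. (Enlarge `F` by `∅`.) -/
theorem cubeD_le_F : ∀ ε : ℝ, 0 < ε → ∃ F : Finset (Finset OP), ∅ ∈ F ∧ ∀ X : ℕ,
    ((cubeD X).ncard : ℝ) ≤ 6 * ∑ R ∈ F, (((arR R).sb (X / PP3.nS nE R ^ 2)).card : ℝ) + ε * X := by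
  intro ε hε
  obtain ⟨C, hC, hcard⟩ := card_sb_le
  obtain ⟨F0, hF0⟩ := summable_iff_vanishing_norm.1 summable_R (ε / (6 * C)) (by positivity)
  refine ⟨insert ∅ F0, Finset.mem_insert_self _ _, fun X => ?_⟩
  set F := insert ∅ F0 with hF
  set f : Finset OP → ℝ := fun R => (((arR R).sb (X / PP3.nS nE R ^ 2)).card : ℝ) with hf
  have hf0 : ∀ R, 0 ≤ f R := fun R => Nat.cast_nonneg _
  have h1 : ((cubeD X).ncard : ℝ) ≤ ∑ R ∈ sbO (Nat.sqrt X), 6 * f R := by
    have := ncard_cubeD_le X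
    simp only [hf]
    exact_mod_cast this
  rw [← Finset.mul_sum] at h1
  have h2 : ∑ R ∈ sbO (Nat.sqrt X), f R ≤ ∑ R ∈ F, f R + ∑ R ∈ sbO (Nat.sqrt X) \ F, f R := by
    rw [add_comm, ← Finset.sum_union Finset.sdiff_disjoint]
    refine Finset.sum_le_sum_of_subset_of_nonneg ?_ fun R _ _ => hf0 R
    intro R hR
    by_cases h : R ∈ F
    · exact Finset.mem_union_right _ h
    · exact Finset.mem_union_left _ (Finset.mem_sdiff.2 ⟨hR, h⟩)
  have h3 : ∑ R ∈ sbO (Nat.sqrt X) \ F, f R ≤ C * X * ∑ R ∈ sbO (Nat.sqrt X) \ F, (1 : ℝ) / (PP3.nS nE R : ℝ) ^ 2 := by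
    rw [Finset.mul_sum]
    refine Finset.sum_le_sum fun R _ => ?_
    have h4 := hcard R (X / PP3.nS nE R ^ 2)
    have h5 : ((X / PP3.nS nE R ^ 2 : ℕ) : ℝ) ≤ X / (PP3.nS nE R : ℝ) ^ 2 := by
      have := Nat.cast_div_le (α := ℝ) (m := X) (n := PP3.nS nE R ^ 2)
      push_cast at this
      exact this
    calc f R ≤ C * ((X / PP3.nS nE R ^ 2 : ℕ) : ℝ) := h4
      _ ≤ C * (X / (PP3.nS nE R : ℝ) ^ 2) := mul_le_mul_of_nonneg_left h5 hC.le
      _ = C * X * (1 / (PP3.nS nE R : ℝ) ^ 2) := by ring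
  have h6 : ∑ R ∈ sbO (Nat.sqrt X) \ F, (1 : ℝ) / (PP3.nS nE R : ℝ) ^ 2 ≤ ε / (6 * C) := by
    have hd : Disjoint (sbO (Nat.sqrt X) \ F) F0 := by
      refine Finset.disjoint_of_subset_right ?_ Finset.sdiff_disjoint
      exact Finset.subset_insert _ _
    have := hF0 _ hd
    rw [Real.norm_eq_abs] at this
    exact (le_abs_self _).trans this.le
  have hCX : 0 ≤ C * (X : ℝ) := mul_nonneg hC.le (Nat.cast_nonneg X)
  have h7 := mul_le_mul_of_nonneg_left h6 hCX
  have h8 : C * (X : ℝ) * (ε / (6 * C)) = ε * X / 6 := by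
    field_simp
  rw [h8] at h7
  have h9 : 6 * ∑ R ∈ sbO (Nat.sqrt X), f R ≤ 6 * ∑ R ∈ F, f R + ε * X := by
    linarith
  exact h1.trans h9

/-- [CU-P12] **The density theorem.** PROOF. Let `c` be the constant of `card_sb_empty_ge`, `ε = c / 3402`, `F` from `cubeD_le_F`, and `dens_R` for the `R ∈ F` with `ε' = c / (6000 (#F + 1))` and `X / N(R)²` for `X` (large enough: `X ≥ N(R)² (X0 + 1)`), `le_ncard_cubeG`:
`1000 #good ≥ 638 * 16/3 Σ - 1000 #F ε' X`, `567 #all ≤ 3402 Σ + 567 ε X`, `Σ = ∑_{R ∈ F} #sb_R ≥ #sb_∅ X ≥ c X`, `638 * 16 / 3 - 3402 = 2/3`; `(2/3) c X ≥ (c/6) X + (c/6) X`. -/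
theorem density : ∃ X0 : ℕ, ∀ X : ℕ, X0 ≤ X → 567 * (cubeD X).ncard ≤ 1000 * (cubeG X).ncard := by
  obtain ⟨c, hc, Z0, hZ⟩ := card_sb_empty_ge
  obtain ⟨F, hF0, hF⟩ := cubeD_le_F (c / 3402) (by positivity)
  have hε' : 0 < c / (6000 * ((F.card : ℝ) + 1)) := by positivity
  have H := fun R : Finset OP => dens_R R (c / (6000 * ((F.card : ℝ) + 1))) hε'
  choose Y hY using H
  refine ⟨Z0 + ∑ R ∈ F, PP3.nS nE R ^ 2 * (Y R + 1), fun X hX => ?_⟩
  have hx0 : (0 : ℝ) ≤ X := Nat.cast_nonneg X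
  set f : Finset OP → ℝ := fun R => (((arR R).sb (X / PP3.nS nE R ^ 2)).card : ℝ) with hf
  have hf0 : ∀ R, 0 ≤ f R := fun R => Nat.cast_nonneg _
  have hpos : ∀ R : Finset OP, 0 < PP3.nS nE R := fun R => by
    unfold PP3.nS
    exact Finset.prod_pos fun v _ => lt_of_lt_of_le Nat.zero_lt_two (two_le_nE v)
  -- the good ones
  have hterm : ∀ R ∈ F, 638 / 1000 * (16 / 3) * f R - c / (6000 * ((F.card : ℝ) + 1)) * X ≤
      ∑ x : Fin 3 × Bool, ((((arR R).sb (X / PP3.nS nE R ^ 2)).filter fun T =>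
        GoodS (un x) (toS R T) (expo R)).card : ℝ) := by
    intro R hR
    have hle : PP3.nS nE R ^ 2 * (Y R + 1) ≤ X := by
      have := Finset.single_le_sum (f := fun R => PP3.nS nE R ^ 2 * (Y R + 1)) (fun i _ => Nat.zero_le _) hR
      have h2 : PP3.nS nE R ^ 2 * (Y R + 1) ≤ ∑ R ∈ F, PP3.nS nE R ^ 2 * (Y R + 1) := this
      omega
    have hY' : Y R ≤ X / PP3.nS nE R ^ 2 := by
      rw [Nat.le_div_iff_mul_le (pow_pos (hpos R) 2)]
      calc Y R * PP3.nS nE R ^ 2 ≤ (Y R + 1) * PP3.nS nE R ^ 2 := Nat.mul_le_mul_right _ (Nat.le_succ _)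
        _ = PP3.nS nE R ^ 2 * (Y R + 1) := by ring
        _ ≤ X := hle
    have h1 := hY R _ hY'
    have h2 : ((X / PP3.nS nE R ^ 2 : ℕ) : ℝ) ≤ X := by exact_mod_cast Nat.div_le_self _ _
    have h3 := mul_le_mul_of_nonneg_left h2 hε'.le
    linarith
  have hgood : ∑ R ∈ F, ∑ x : Fin 3 × Bool, ((((arR R).sb (X / PP3.nS nE R ^ 2)).filter fun T =>
        GoodS (un x) (toS R T) (expo R)).card : ℝ) ≤ ((cubeG X).ncard : ℝ) := by
    have := le_ncard_cubeG X F
    exact_mod_cast this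
  have hsum := (Finset.sum_le_sum hterm).trans hgood
  rw [Finset.sum_sub_distrib, ← Finset.mul_sum, Finset.sum_const, nsmul_eq_mul] at hsum
  have hall := hF X
  have hbig : c * X ≤ ∑ R ∈ F, f R := by
    refine le_trans ?_ (Finset.single_le_sum (fun R _ => hf0 R) hF0)
    have h1 := hZ X (by omega)
    have h2 : f ∅ = (((arR ∅).sb X).card : ℝ) := by
      have : X / PP3.nS nE (∅ : Finset OP) ^ 2 = X := by
        unfold PP3.nS
        simp
      rw [hf]
      simp only [this]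
    rw [h2]
    exact h1
  have hFc : (F.card : ℝ) * (c / (6000 * ((F.card : ℝ) + 1)) * X) ≤ c / 6000 * X := by
    have h0 : (0 : ℝ) ≤ F.card := Nat.cast_nonneg _
    have h1 : (F.card : ℝ) * (c / (6000 * ((F.card : ℝ) + 1)) * X) =
        ((F.card : ℝ) / ((F.card : ℝ) + 1)) * (c / 6000 * X) := by
      field_simp
    rw [h1]
    have h2 : (F.card : ℝ) / ((F.card : ℝ) + 1) ≤ 1 := by
      rw [div_le_one (by positivity)]
      linarith
    have h3 : 0 ≤ c / 6000 * (X : ℝ) := by positivity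
    calc _ ≤ 1 * (c / 6000 * (X : ℝ)) := mul_le_mul_of_nonneg_right h2 h3
      _ = _ := one_mul _
  have hcx : 0 ≤ c * (X : ℝ) := mul_nonneg hc.le hx0
  have hfinal : 567 * ((cubeD X).ncard : ℝ) ≤ 1000 * ((cubeG X).ncard : ℝ) := by
    have h1 : ((cubeD X).ncard : ℝ) ≤ 6 * ∑ R ∈ F, f R + c / 3402 * X := hall
    linarith
  exact_mod_cast hfinal

end CU
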