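import Pool.Agent.CU.P6
import Pool.Agent.CU.P7
import Pool.Agent.PP3.AM5
import Pool.Agent.SY3.A9

set_option autoImplicit false

open scoped Classical
open Finset
open CM27

/-!
# [CU-P8] the mean value for random symbols
-/

namespace CU

/-- [CU-P8a] Model: PI/DZ8 `minK_equiv`. PROOF. `z ↦ z ∘ f` maps the kernel for `κ` onto the kernel for `ι`. -/
theorem minK_equiv {ι κ : Type} [Fintype ι] [Fintype κ] (f : ι ≃ κ) (b : κ → κ → ZMod 3) (e : κ → ZMod 3) :
    SY3.MinK (fun i j => b (f i) (f j)) (fun i => e (f i)) ↔ SY3.MinK b e := by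
  unfold SY3.MinK
  have hLp : ∀ (z : κ → ZMod 3) (i : ι), SY3.Lp (fun i j => b (f i) (f j)) (fun i => z (f i)) i = SY3.Lp b z (f i) := by
    intro z i
    unfold SY3.Lp
    exact f.sum_comp fun v => b (f i) v * (z (f i) - z v)
  constructor
  · intro h z hz
    unfold SY3.Kr at h hz
    rw [mem_filter] at hz
    obtain ⟨c, hc⟩ := h (fun i => z (f i)) (by
      rw [mem_filter]
      refine ⟨mem_univ _, fun i => ?_⟩
      rw [hLp]
      exact hz.2 (f i))
    refine ⟨c, fun k => ?_⟩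
    have := hc (f.symm k)
    simpa using this
  · intro h z hz
    unfold SY3.Kr at h hz
    rw [mem_filter] at hz
    have hzz : (fun i => (fun k => z (f.symm k)) (f i)) = z := by
      funext i
      simp
    obtain ⟨c, hc⟩ := h (fun k => z (f.symm k)) (by
      rw [mem_filter]
      refine ⟨mem_univ _, fun k => ?_⟩
      have h2 := hz.2 (f.symm k)
      have h3 := hLp (fun k => z (f.symm k)) (f.symm k)
      rw [hzz] at h3
      rw [h3] at h2
      simpa using h2)
    refine ⟨c, fun i => ?_⟩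
    have := hc (f i)
    simpa using this

/-- [CU-P8b] PROOF. `b i i * (z i - z i) = 0`. -/
theorem minK_diag {ι : Type} [Fintype ι] {b b' : ι → ι → ZMod 3} (e : ι → ZMod 3) (h : ∀ i j, i ≠ j → b i j = b' i j) :
    SY3.MinK b e ↔ SY3.MinK b' e := by
  have hLp : ∀ (z : ι → ZMod 3) (i : ι), SY3.Lp b z i = SY3.Lp b' z i := by
    intro z i
    unfold SY3.Lp
    refine sum_congr rfl fun v _ => ?_
    by_cases hv : i = v
    · subst hv
      rw [sub_self, mul_zero, mul_zero]
    · rw [h i v hv]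
  unfold SY3.MinK SY3.Kr
  simp only [hLp]

/-- [CU-P8c] PROOF. `minK_equiv` for `Equiv.sumCongr f (Equiv.refl _)`; sums over equivalent types. -/
theorem condE_equiv (R : Finset OP) (s : ZMod 3) {ι κ : Type} [Fintype ι] [Fintype κ] (f : ι ≃ κ) (b : κ → κ → ZMod 3)
    (c : κ → Option {x // x ∈ R} → ZMod 3) :
    CondE R s (fun i j => b (f i) (f j)) (fun i => c (f i)) ↔ CondE R s b c := by
  have h1 : (∑ i, c (f i) none) = ∑ i, c i none := f.sum_comp fun i => c i none
  have h2 := minK_equiv (Equiv.sumCongr f (Equiv.refl {x // x ∈ R})) (bb R b c) (ee R s c)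
  have h3 : (∃ i, c (f i) none ≠ 0) ↔ ∃ i, c i none ≠ 0 :=
    ⟨fun ⟨i, hi⟩ => ⟨f i, hi⟩, fun ⟨i, hi⟩ => ⟨f.symm i, by simpa using hi⟩⟩
  have h4 : bb R (fun i j => b (f i) (f j)) (fun i => c (f i)) = fun i j =>
      bb R b c ((Equiv.sumCongr f (Equiv.refl {x // x ∈ R})) i)
        ((Equiv.sumCongr f (Equiv.refl {x // x ∈ R})) j) := by
    funext i j
    rcases i with i | i <;> rcases j with j | j <;> rfl
  have h5 : ee R s (fun i => c (f i)) = fun i =>
      ee R s c ((Equiv.sumCongr f (Equiv.refl {x // x ∈ R})) i) := by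
    funext i
    rcases i with i | i <;> rfl
  unfold CondE
  rw [h1, h3, h4, h5, h2]

/-- [CU-P8d] PROOF. `minK_diag`: `bb` changes only on the diagonal. -/
theorem condE_diag (R : Finset OP) (s : ZMod 3) {ι : Type} [Fintype ι] {b b' : ι → ι → ZMod 3}
    (c : ι → Option {x // x ∈ R} → ZMod 3) (h : ∀ i j, i ≠ j → b i j = b' i j) : CondE R s b c ↔ CondE R s b' c := by
  have h1 : ∀ i j, i ≠ j → bb R b c i j = bb R b' c i j := by
    intro i j hij
    rcases i with i | i <;> rcases j with j | j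
    · exact h i j (fun h2 => hij (by rw [h2]))
    · rfl
    · rfl
    · rfl
  unfold CondE
  rw [minK_diag _ h1]

/-- the function of the symbols: `1` if the condition holds -/
noncomputable def PhiE (R : Finset OP) (s : ZMod 3) : PP3.Fun (Option {x // x ∈ R}) where
  val := fun _ _ b c => if CondE R s b c then 1 else 0
  bd := by
    intro ι _ b c
    split_ifs <;> norm_num
  iso := by
    intro ι κ _ _ f b c
    simp only [condE_equiv R s f b c]
  diag := by
    intro ι _ b b' c h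
    simp only [condE_diag R s c h]

/-- [CU-P8e] the mean value over the symbols of a larger index set. PROOF. The restriction `(κ → κ → F₃) → (ι → ι → F₃)`, `ω ↦ ω ∘ (f, f)`, is a surjective homomorphism, so all fibres have the same number of elements; sum over the fibres. -/
theorem card_restrict {ι κ : Type} [Fintype ι] [Fintype κ] (f : ι ↪ κ) (Q : (ι → ι → ZMod 3) → Prop) :
    (univ.filter fun ω : κ → κ → ZMod 3 => Q (fun i j => ω (f i) (f j))).card * Fintype.card (ι → ι → ZMod 3) =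
      (univ.filter fun ω : ι → ι → ZMod 3 => Q ω).card * Fintype.card (κ → κ → ZMod 3) := by
  set φ : (κ → κ → ZMod 3) →+ (ι → ι → ZMod 3) :=
    { toFun := fun ω i j => ω (f i) (f j), map_zero' := rfl, map_add' := fun _ _ => rfl } with hφ
  have hsurj : ∀ ω0 : ι → ι → ZMod 3, ω0 ∈ Set.range φ := by
    intro ω0
    refine ⟨Function.extend f (fun i => Function.extend f (ω0 i) 0) 0, ?_⟩
    funext i j
    change (Function.extend f (fun i => Function.extend f (ω0 i) 0) 0) (f i) (f j) = ω0 i j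
    rw [f.injective.extend_apply, f.injective.extend_apply]
  set N := (univ.filter fun ω : κ → κ → ZMod 3 => φ ω = 0).card with hN
  have hfib : ∀ ω0 : ι → ι → ZMod 3, (univ.filter fun ω : κ → κ → ZMod 3 => φ ω = ω0).card = N := by
    intro ω0
    exact AddMonoidHom.card_fiber_eq_of_mem_range φ (hsurj ω0) (hsurj 0)
  have h1 : (univ.filter fun ω : κ → κ → ZMod 3 => Q (φ ω)).card =
      (univ.filter fun ω : ι → ι → ZMod 3 => Q ω).card * N := by
    rw [card_eq_sum_card_fiberwise (f := φ) (t := univ.filter fun ω : ι → ι → ZMod 3 => Q ω)]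
    · rw [← smul_eq_mul, ← sum_const]
      refine sum_congr rfl fun ω0 hω0 => ?_
      rw [← hfib ω0, filter_filter]
      congr 1
      ext ω
      simp only [mem_filter, mem_univ, true_and]
      constructor
      · exact fun h => h.2
      · intro h
        rw [mem_filter] at hω0
        exact ⟨by rw [h]; exact hω0.2, h⟩
    · intro ω hω
      rw [mem_coe, mem_filter] at hω
      rw [mem_coe, mem_filter]
      exact ⟨mem_univ _, hω.2⟩
  have h2 : Fintype.card (κ → κ → ZMod 3) = Fintype.card (ι → ι → ZMod 3) * N := by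
    rw [← card_univ, card_eq_sum_card_fiberwise (f := φ) (t := univ) (fun _ _ => mem_coe.2 (mem_univ _)),
      ← card_univ, ← smul_eq_mul, ← sum_const]
    exact sum_congr rfl fun ω0 _ => hfib ω0
  change (univ.filter fun ω : κ → κ → ZMod 3 => Q (φ ω)).card * _ = _
  rw [h1, h2]
  ring

/-- the large elements of `T` -/
noncomputable def LL (R : Finset OP) (z : ℕ) (T : Finset (PR R)) : Finset (T ⊕ {x // x ∈ R}) :=
  (univ.filter fun u : T => z < nR R u).map Function.Embedding.inl

/-- the order by the norm -/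
def rr (R : Finset OP) (T : Finset (PR R)) : T ⊕ {x // x ∈ R} → T ⊕ {x // x ∈ R} → Prop
  | Sum.inl u, Sum.inl v => nR R u < nR R v
  | _, _ => False

theorem p8_avg {ι κ : Type} [Fintype ι] [Fintype κ] (f : ι ↪ κ) (Q : (ι → ι → ZMod 3) → Prop)
    (M : (κ → κ → ZMod 3) → Prop) (hQM : ∀ ω, Q (fun i j => ω (f i) (f j)) ↔ M ω)
    (hM : (638 / 1000 : ℝ) * Fintype.card (κ → κ → ZMod 3) ≤ ((univ.filter fun ω : κ → κ → ZMod 3 => M ω).card : ℝ)) :
    (638 / 1000 : ℝ) * ((Fintype.card (ι → ι → ZMod 3) : ℕ) : ℝ) ≤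
      ((univ.filter fun ω : ι → ι → ZMod 3 => Q ω).card : ℝ) := by
  have hrest := card_restrict f Q
  have e1 : (univ.filter fun ω : κ → κ → ZMod 3 => Q (fun i j => ω (f i) (f j))) =
      univ.filter fun ω : κ → κ → ZMod 3 => M ω := filter_congr fun ω _ => hQM ω
  rw [e1] at hrest
  have hpos : (0 : ℝ) < ((Fintype.card (κ → κ → ZMod 3) : ℕ) : ℝ) := by
    exact_mod_cast Fintype.card_pos
  have h9 : ((univ.filter fun ω : κ → κ → ZMod 3 => M ω).card : ℝ) * ((Fintype.card (ι → ι → ZMod 3) : ℕ) : ℝ) =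
      ((univ.filter fun ω : ι → ι → ZMod 3 => Q ω).card : ℝ) * ((Fintype.card (κ → κ → ZMod 3) : ℕ) : ℝ) := by
    exact_mod_cast hrest
  have h10 := mul_le_mul_of_nonneg_right hM (Nat.cast_nonneg (α := ℝ) (Fintype.card (ι → ι → ZMod 3)))
  rw [h9] at h10
  have h11 : (638 / 1000 : ℝ) * ((Fintype.card (ι → ι → ZMod 3) : ℕ) : ℝ) * ((Fintype.card (κ → κ → ZMod 3) : ℕ) : ℝ) ≤
      ((univ.filter fun ω : ι → ι → ZMod 3 => Q ω).card : ℝ) * ((Fintype.card (κ → κ → ZMod 3) : ℕ) : ℝ) := by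
    refine le_trans (le_of_eq ?_) h10
    ring
  exact le_of_mul_le_mul_right h11 hpos

theorem p8_mem_LL (R : Finset OP) (z : ℕ) (T : Finset (PR R)) {u : T ⊕ {x // x ∈ R}} :
    u ∈ LL R z T ↔ ∃ v : T, z < nR R v ∧ Sum.inl v = u := by
  unfold LL
  rw [mem_map]
  constructor
  · rintro ⟨v, hv, rfl⟩
    rw [mem_filter] at hv
    exact ⟨v, hv.2, rfl⟩
  · rintro ⟨v, hv, rfl⟩
    exact ⟨v, by rw [mem_filter]; exact ⟨mem_univ _, hv⟩, rfl⟩

theorem p8_two : ∀ {x : ZMod 3}, 2 * x = 0 → x = 0 := by decide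

theorem p8_mul : ∀ {x y : ZMod 3}, x * y = 0 → x = 0 ∨ y = 0 := by decide

theorem p8_card_LL (R : Finset OP) (z : ℕ) (T : Finset (PR R)) :
    (LL R z T).card = ((arR R).La z T).card := by
  unfold LL
  rw [card_map, ← card_map (Function.Embedding.subtype _)]
  congr 1
  ext v
  unfold PP3.Nm.La
  rw [mem_map, mem_filter]
  constructor
  · rintro ⟨w, hw, rfl⟩
    rw [mem_filter] at hw
    exact ⟨w.2, hw.2⟩
  · rintro ⟨h1, h2⟩
    refine ⟨⟨v, h1⟩, ?_, rfl⟩
    rw [mem_filter]
    exact ⟨mem_univ _, h2⟩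

/-- [CU-P8f] the hypotheses of `SY3.main` for a good `T`. Model: PI/DZ8 `gd_of_GdT`. PROOF. `tour`: no two large elements have the same norm. `symm`: `sy_symm`. `ind`: for `c : T ⊕ R → F₃` zero on `LL` and `α`: let `A` = the restriction of `c` to `T` (a
finitely supported function on `PR R` with support in the small elements of `T`), `e (some ρ) = 2 c ρ`, `e none = α s`. Then `(A, e) ≠ 0`: if `c ≠ 0` clear; if `α ≠ 0` and `ee ≠ 0` then `s ≠ 0`, so `e none ≠ 0`. By the second condition of `Gd` (`K ≥ 1`) some large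
`v ∈ T` has `xi A e v ≠ 1`, i.e. (`v ∉ supp A`) `∑_u A u a(u, v) + ∑ e γ g γ v ≠ 0`, and this is `∑_u c u bb (u, v) + α ee v`. -/
theorem gd_of_Gd {R : Finset OP} {m K X : ℕ} (hK : 1 ≤ K) {T : Finset (PR R)} (h : (arR R).Gd m K X T) (s : ZMod 3) :
    SY3.Gd (LL R (PP3.zz 600 X) T) (rr R T) (bb R (fun u v : T => aR R u v) (fun (v : T) γ => gR R γ v))
      (ee R s (fun (v : T) γ => gR R γ v)) := by
  refine ⟨?_, ?_, ?_⟩
  · intro u hu v hv huv
    obtain ⟨u', hu', rfl⟩ := (p8_mem_LL R _ T).1 hu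
    obtain ⟨v', hv', rfl⟩ := (p8_mem_LL R _ T).1 hv
    have h1 : nR R u' ≠ nR R v' := by
      intro hh
      exact huv (by rw [Subtype.ext (h.1 u' u'.2 v' v'.2 hu' hh)])
    change nR R u' < nR R v' ↔ ¬ nR R v' < nR R u'
    constructor
    · intro h2
      omega
    · intro h2
      omega
  · intro u v _
    rcases u with u | ρ <;> rcases v with v | σ
    · change sy v.1.1.1 u.1.1.1 = sy u.1.1.1 v.1.1.1
      exact sy_symm v.1.1.2.1 v.1.1.2.2 u.1.1.2.1 u.1.1.2.2
    · rfl
    · rfl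
    · change sy σ.1.1 ρ.1.1 = sy ρ.1.1 σ.1.1
      exact sy_symm σ.1.2.1 σ.1.2.2 ρ.1.2.1 ρ.1.2.2
  · intro c α hc hor
    set A : PR R →₀ ZMod 3 := Finsupp.onFinset T
      (fun u => if hu : u ∈ T then c (Sum.inl ⟨u, hu⟩) else 0) (by
        intro u hu
        by_contra hcon
        rw [dif_neg hcon] at hu
        exact hu rfl) with hA
    have hAapp : ∀ u : T, A u = c (Sum.inl u) := by
      intro u
      rw [hA, Finsupp.onFinset_apply, dif_pos u.2]
    have hAsup : A.support ⊆ T := Finsupp.support_onFinset_subset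
    set e : Option {x // x ∈ R} → ZMod 3 := fun γ => match γ with
      | none => α * s
      | some ρ => 2 * c (Sum.inr ρ) with he
    have hAS : A.support ⊆ (arR R).Sm (PP3.zz 600 X) T := by
      intro u hu
      have huT := hAsup hu
      unfold PP3.Nm.Sm
      rw [mem_filter]
      refine ⟨huT, ?_⟩
      by_contra h4
      rw [Finsupp.mem_support_iff] at hu
      apply hu
      have h5 := hAapp ⟨u, huT⟩
      rw [h5]
      exact hc _ ((p8_mem_LL R _ T).2 ⟨⟨u, huT⟩, not_le.1 h4, rfl⟩)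
    have hne : A ≠ 0 ∨ e ≠ 0 := by
      by_contra hcon
      push Not at hcon
      obtain ⟨hA0, he0⟩ := hcon
      have h6 : α * s = 0 := congrFun he0 none
      have h7 : ∀ ρ, c (Sum.inr ρ) = 0 := by
        intro ρ
        have h8 : 2 * c (Sum.inr ρ) = 0 := congrFun he0 (some ρ)
        exact p8_two h8
      have h9 : c = 0 := by
        funext u
        rcases u with u | ρ
        · have := hAapp u
          rw [hA0] at this
          exact this.symm
        · exact h7 ρ
      rcases hor with h10 | ⟨h10, h11⟩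
      · exact h10 h9
      · apply h11
        have hs0 : s = 0 := (p8_mul h6).resolve_left h10
        funext u
        rcases u with u | ρ
        · change s * _ = 0
          rw [hs0, zero_mul]
        · change 2 * (s * _) = 0
          rw [hs0, zero_mul, mul_zero]
    have h1 := h.2.1 A hAS e hne
    obtain ⟨v, hv⟩ := card_pos.1 (lt_of_lt_of_le (Nat.lt_of_lt_of_le Nat.zero_lt_one hK) h1)
    rw [mem_filter] at hv
    obtain ⟨hv1, hv2⟩ := hv
    unfold PP3.Nm.La at hv1
    rw [mem_filter] at hv1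
    refine ⟨Sum.inl ⟨v, hv1.1⟩, (p8_mem_LL R _ T).2 ⟨⟨v, hv1.1⟩, hv1.2, rfl⟩, ?_⟩
    intro h7
    apply hv2
    have hAv : A v = 0 := by
      have h8 := hAapp ⟨v, hv1.1⟩
      rw [h8]
      exact hc _ ((p8_mem_LL R _ T).2 ⟨⟨v, hv1.1⟩, hv1.2, rfl⟩)
    unfold PP3.Ar.xi PP3.xi0
    rw [if_neg (not_not.2 hAv)]
    have h8 : ∑ u ∈ A.support, A u * (arR R).a u v + ∑ γ, e γ * (arR R).g γ v = 0 := by
      rw [← h7, Fintype.sum_sum_type, Fintype.sum_option]
      have e1 : ∑ u ∈ A.support, A u * (arR R).a u v = ∑ u : T, c (Sum.inl u) * aR R u v := by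
        rw [sum_subset hAsup (f := fun u => A u * (arR R).a u v) (by
          intro u _ hu
          rw [Finsupp.notMem_support_iff.1 hu, zero_mul]), ← sum_coe_sort T]
        refine sum_congr rfl fun u _ => ?_
        rw [hAapp u]
        rfl
      rw [e1]
      have e2 : e none * (arR R).g none v = α * (s * gR R none v) := by
        change (α * s) * gR R none v = _
        ring
      have e3 : ∑ ρ, e (some ρ) * (arR R).g (some ρ) v = ∑ ρ : {x // x ∈ R}, c (Sum.inr ρ) * (2 * gR R (some ρ) v) := by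
        refine sum_congr rfl fun ρ _ => ?_
        change (2 * c (Sum.inr ρ)) * gR R (some ρ) v = _
        ring
      rw [e2, e3]
      change _ = (∑ u : T, c (Sum.inl u) * aR R u v + ∑ ρ : {x // x ∈ R}, c (Sum.inr ρ) * (2 * gR R (some ρ) v)) +
        α * (s * gR R none v)
      ring
    rw [h8, AddChar.map_zero_eq_one]

/-- [CU-P8g] PROOF. `#(T ⊕ R) - #LL = #Sm + #R`, `#LL = #La`; the third condition of `Gd` with `m = 1`, `K = #R + 22`. -/
theorem card_of_Gd {R : Finset OP} {X : ℕ} {T : Finset (PR R)} (h : (arR R).Gd 1 (R.card + 22) X T) :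
    Fintype.card (T ⊕ {x // x ∈ R}) - (LL R (PP3.zz 600 X) T).card + 22 ≤ (LL R (PP3.zz 600 X) T).card := by
  have hS : ((arR R).Sm (PP3.zz 600 X) T).card + ((arR R).La (PP3.zz 600 X) T).card = T.card := by
    unfold PP3.Nm.Sm PP3.Nm.La
    rw [← card_filter_add_card_filter_not (s := T) (fun v => (arR R).N v ≤ PP3.zz 600 X)]
    simp only [not_le]
  have h3 := h.2.2
  rw [p8_card_LL, Fintype.card_sum, Fintype.card_coe, Fintype.card_coe]
  omega

/-- [CU-P8] Model: PI/DZ8 `hh_ge`. PROOF. `hh z z T = #Ω⁻¹ ∑_ω (PhiE R s).val T (mix z z (ext T ω)) (g)`. Off the diagonal `bb R (mix z z (ext T ω)) g = mx LL rr (bb R a g) ω'` for every `ω' : T ⊕ R → T ⊕ R → F₃` which restricts to `ω` (`N u ≠ N v` for large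
`u ≠ v`). The first condition of `CondE` is `h1` (it does not depend on the symbols), the third follows from `Gd` with `A = 0`, `e = ` the indicator of `none` (`K ≥ 1`). So `hh = #{ω : MinK ..}/#Ω`, and by `card_restrict` and `SY3.main` (`gd_of_Gd`, `card_of_Gd`)
it is `≥ 638/1000`. -/
theorem hh_ge {R : Finset OP} {X : ℕ} {T : Finset (PR R)} (h : (arR R).Gd 1 (R.card + 22) X T) (s : ZMod 3)
    (h1 : s = 0 → beta R T ≠ 0) :
    638 / 1000 ≤ (arR R).hh (PhiE R s) (PP3.zz 600 X) (PP3.zz 600 X) T := by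
  set z := PP3.zz 600 X with hz
  have hK : 1 ≤ R.card + 22 := by omega
  set L := LL R z T with hLdef
  set r := rr R T with hr
  set a := bb R (fun u v : T => aR R u v) (fun (v : T) γ => gR R γ v) with ha
  set e' := ee R s (fun (v : T) γ => gR R γ v) with he'
  have hmain := SY3.main (L := L) (r := r) (a := a) (e := e') (gd_of_Gd hK h s) (card_of_Gd h)
  -- the conditions on the class characters
  have hc1 : s = 0 → ∑ i : T, gR R none i + 2 * ∑ ρ ∈ R, sy om ρ.1 ≠ 0 := by
    intro hs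
    have h2 := h1 hs
    unfold beta at h2
    rw [sum_coe_sort T (fun v => gR R none v)]
    exact h2
  have hc3 : s ≠ 0 → ∃ i : T, gR R none i ≠ 0 := by
    intro _
    set e : Option {x // x ∈ R} → ZMod 3 := fun γ => match γ with
      | none => 1
      | some _ => 0 with he
    have h2 := h.2.1 0 (by rw [Finsupp.support_zero]; exact empty_subset _) e (Or.inr (by
      intro h3
      have h4 : (1 : ZMod 3) = 0 := congrFun h3 none
      exact one_ne_zero h4))
    obtain ⟨v, hv⟩ := card_pos.1 (lt_of_lt_of_le (Nat.lt_of_lt_of_le Nat.zero_lt_one hK) h2)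
    rw [mem_filter] at hv
    obtain ⟨hv1, hv2⟩ := hv
    unfold PP3.Nm.La at hv1
    rw [mem_filter] at hv1
    refine ⟨⟨v, hv1.1⟩, ?_⟩
    intro h7
    apply hv2
    unfold PP3.Ar.xi PP3.xi0
    rw [if_neg (by simp)]
    have h8 : ∑ u ∈ (0 : PR R →₀ ZMod 3).support, (0 : PR R →₀ ZMod 3) u * (arR R).a u v + ∑ γ, e γ * (arR R).g γ v = 0 := by
      rw [Finsupp.support_zero, sum_empty, zero_add, Fintype.sum_option]
      have e1 : e none * (arR R).g none v = 0 := by
        change 1 * gR R none v = 0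
        rw [one_mul]
        exact h7
      have e2 : ∑ ρ, e (some ρ) * (arR R).g (some ρ) v = 0 :=
        sum_eq_zero fun ρ _ => by
          change 0 * _ = (0 : ZMod 3)
          rw [zero_mul]
      rw [e1, e2, add_zero]
    rw [h8, AddChar.map_zero_eq_one]
  -- the symbols
  have hmix : ∀ (ω : (T ⊕ {x // x ∈ R}) → (T ⊕ {x // x ∈ R}) → ZMod 3) (x y : T ⊕ {x // x ∈ R}), x ≠ y →
      bb R (fun u v : T => (arR R).mix z z (PP3.ext T fun i j => ω (Sum.inl i) (Sum.inl j)) u v)
        (fun (v : T) γ => gR R γ v) x y = SY3.mx L r a ω x y := by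
    intro ω x y hxy
    rcases x with u | ρ <;> rcases y with v | σ
    · have huv : u ≠ v := fun h2 => hxy (by rw [h2])
      change (arR R).mix z z (PP3.ext T fun i j => ω (Sum.inl i) (Sum.inl j)) u v = _
      unfold PP3.Ar.mix SY3.mx
      by_cases hu : z < nR R u ∧ z < nR R v
      · have hne : nR R u ≠ nR R v := by
          intro hh
          exact huv (Subtype.ext (h.1 u u.2 v v.2 hu.1 hh))
        have hcond : z < (arR R).N u ∧ z < (arR R).N v ∧ (arR R).N u ≠ (arR R).N v ∧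
            z < max ((arR R).N u) ((arR R).N v) :=
          ⟨hu.1, hu.2, hne, lt_of_lt_of_le hu.1 (le_max_left _ _)⟩
        have hcond' : (Sum.inl u : T ⊕ {x // x ∈ R}) ∈ L ∧ (Sum.inl v : T ⊕ {x // x ∈ R}) ∈ L :=
          ⟨(p8_mem_LL R z T).2 ⟨u, hu.1, rfl⟩, (p8_mem_LL R z T).2 ⟨v, hu.2, rfl⟩⟩
        rw [if_pos hcond, if_pos hcond']
        have hext1 : PP3.ext T (fun i j => ω (Sum.inl i) (Sum.inl j)) u v = ω (Sum.inl u) (Sum.inl v) := by
          unfold PP3.ext
          rw [dif_pos ⟨u.2, v.2⟩]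
        have hext2 : PP3.ext T (fun i j => ω (Sum.inl i) (Sum.inl j)) v u = ω (Sum.inl v) (Sum.inl u) := by
          unfold PP3.ext
          rw [dif_pos ⟨v.2, u.2⟩]
        by_cases hlt : nR R u < nR R v
        · rw [if_pos (show (arR R).N u < (arR R).N v from hlt), if_pos (show r (Sum.inl u) (Sum.inl v) from hlt), hext1]
        · rw [if_neg (show ¬ (arR R).N u < (arR R).N v from hlt),
            if_neg (show ¬ r (Sum.inl u) (Sum.inl v) from hlt), hext2]
      · rw [if_neg (fun hh => hu ⟨hh.1, hh.2.1⟩), if_neg (fun hh => hu ?_)]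
        · rfl
        · obtain ⟨u', hu', hu2⟩ := (p8_mem_LL R z T).1 hh.1
          obtain ⟨v', hv', hv2⟩ := (p8_mem_LL R z T).1 hh.2
          rw [← Sum.inl.inj hu2, ← Sum.inl.inj hv2]
          exact ⟨hu', hv'⟩
    · unfold SY3.mx
      rw [if_neg (fun hh => ?_)]
      · rfl
      · obtain ⟨v', _, hv2⟩ := (p8_mem_LL R z T).1 hh.2
        exact Sum.inl_ne_inr hv2
    · unfold SY3.mx
      rw [if_neg (fun hh => ?_)]
      · rfl
      · obtain ⟨v', _, hv2⟩ := (p8_mem_LL R z T).1 hh.1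
        exact Sum.inl_ne_inr hv2
    · unfold SY3.mx
      rw [if_neg (fun hh => ?_)]
      · rfl
      · obtain ⟨v', _, hv2⟩ := (p8_mem_LL R z T).1 hh.1
        exact Sum.inl_ne_inr hv2
  set Q : (T → T → ZMod 3) → Prop := fun ω =>
    SY3.MinK (bb R (fun u v : T => (arR R).mix z z (PP3.ext T ω) u v) (fun (v : T) γ => gR R γ v)) e' with hQ
  have hQ' : ∀ ω : (T ⊕ {x // x ∈ R}) → (T ⊕ {x // x ∈ R}) → ZMod 3,
      Q (fun i j => ω (Sum.inl i) (Sum.inl j)) ↔ SY3.MinK (SY3.mx L r a ω) e' := by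
    intro ω
    exact minK_diag _ (hmix ω)
  have hval : ∀ ω : T → T → ZMod 3, (arR R).vv (PhiE R s) T ((arR R).mix z z (PP3.ext T ω)) =
      if Q ω then 1 else 0 := by
    intro ω
    have hiff : CondE R s (fun u v : T => (arR R).mix z z (PP3.ext T ω) u v) (fun (u : T) γ => gR R γ u) ↔
        Q ω := ⟨fun h6 => h6.2.1, fun h6 => ⟨hc1, h6, hc3⟩⟩
    change (if CondE R s (fun u v : T => (arR R).mix z z (PP3.ext T ω) u v) (fun (u : T) γ => gR R γ u)
      then (1 : ℝ) else 0) = _
    by_cases h6 : Q ω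
    · rw [if_pos (hiff.2 h6), if_pos h6]
    · rw [if_neg (fun h7 => h6 (hiff.1 h7)), if_neg h6]
  have hkey0 := p8_avg (Function.Embedding.inl : T ↪ T ⊕ {x // x ∈ R}) Q
    (fun ω => SY3.MinK (SY3.mx L r a ω) e') hQ' hmain
  have hkey : ∀ F0 F : Fintype (T → T → ZMod 3), (638 / 1000 : ℝ) * ((@Fintype.card (T → T → ZMod 3) F0 : ℕ) : ℝ) ≤
      (((@univ (T → T → ZMod 3) F0).filter fun ω => Q ω).card : ℝ) →
      (638 / 1000 : ℝ) * ((@Fintype.card (T → T → ZMod 3) F : ℕ) : ℝ) ≤
      (((@univ (T → T → ZMod 3) F).filter fun ω => Q ω).card : ℝ) := by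
    intro F0 F hF
    obtain rfl : F0 = F := Subsingleton.elim _ _
    exact hF
  have hgen : ∀ F : Fintype (T → T → ZMod 3), (638 / 1000 : ℝ) * ((@Fintype.card (T → T → ZMod 3) F : ℕ) : ℝ) ≤
      ∑ ω ∈ @univ _ F, (arR R).vv (PhiE R s) T ((arR R).mix z z (PP3.ext T ω)) := by
    intro F
    have hsb : ∑ ω ∈ @univ _ F, (if Q ω then (1 : ℝ) else 0) =
        (((@univ (T → T → ZMod 3) F).filter fun ω => Q ω).card : ℝ) := by
      rw [sum_boole]
    rw [sum_congr rfl fun ω _ => hval ω, hsb]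
    exact hkey _ _ hkey0
  have hcard' : ∀ F : Fintype (T → T → ZMod 3), (0 : ℝ) < ((@Fintype.card (T → T → ZMod 3) F : ℕ) : ℝ) := by
    intro F
    exact_mod_cast @Fintype.card_pos _ F _
  have hdiv : ∀ x y : ℝ, 0 < y → (638 / 1000 : ℝ) * y ≤ x → (638 / 1000 : ℝ) ≤ x / y := by
    intro x y hy hxy
    rwa [le_div_iff₀ hy]
  unfold PP3.Ar.hh
  exact hdiv _ _ (hcard' _) (hgen _)

end CU
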