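import Pool.Agent.CU.P8

set_option autoImplicit false

open scoped Classical
open Finset
open CM27

/-!
# [CU-P9] the density of the good sets `T`, for fixed `R` and `u`
-/

namespace CU

/-- the sum of the values is at most the number of good sets -/
theorem p9_val (R : Finset OP) {u : Eis} {k : ℕ} (hu : u = om ^ k ∨ u = -om ^ k) (X : ℕ) :
    ∑ T ∈ (arR R).sb X, (arR R).vv (PhiE R (k : ZMod 3)) T (arR R).a ≤
      ((((arR R).sb X).filter fun T => GoodS u (toS R T) (expo R)).card : ℝ) := by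
  rw [card_filter, Nat.cast_sum]
  refine sum_le_sum fun T _ => ?_
  change (if CondE R (k : ZMod 3) (fun u v : T => (arR R).a u v) (fun u γ => (arR R).g γ u) then (1 : ℝ) else 0) ≤ _
  by_cases h5 : CondE R (k : ZMod 3) (fun u v : T => (arR R).a u v) (fun u γ => (arR R).g γ u)
  · rw [if_pos h5]
    have h9 : GoodS u (toS R T) (expo R) := goodS_of_cond hu h5
    rw [if_pos h9, Nat.cast_one]
  · rw [if_neg h5]
    exact Nat.cast_nonneg _

/-- [CU-P9] Model: PI/DZ9. PROOF. `PP3.Ar.transfer` (`m = 1`, `K = #R + 22`) for `PhiE R k`, and `PP3.Ar.exc_all` for the bad `T`. `vv Φ T a = 1` implies `CondE`, hence `GoodS u (toS R T) (expo R)` (`goodS_of_cond`), so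
`#{T good} ≥ ∑_T vv ≥ ∑_{T ∈ Gd} hh - ε X ≥ (638/1000) #{T ∈ Gd : k = 0 → beta ≠ 0} - ε X ≥ (638/1000) #{T : k = 0 → beta ≠ 0} - 2 ε X` (`hh_ge`; `hh ≥ 0` by `hh_mem`). -/
theorem dens_RT (R : Finset OP) {u : Eis} {k : ℕ} (hu : u = om ^ k ∨ u = -om ^ k) : ∀ ε : ℝ, 0 < ε → ∃ X0 : ℕ, ∀ X : ℕ, X0 ≤ X →
    638 / 1000 * ((((arR R).sb X).filter fun T => (k : ZMod 3) = 0 → beta R T ≠ 0).card : ℝ) - ε * X ≤
      ((((arR R).sb X).filter fun T => GoodS u (toS R T) (expo R)).card : ℝ) := by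
  intro ε hε
  have hε2 : 0 < ε / 2 := by linarith
  obtain ⟨X1, hX1⟩ := (arR R).transfer (PhiE R (k : ZMod 3)) 1 (R.card + 22) (ε / 2) hε2
  obtain ⟨X2, hX2⟩ := (arR R).exc_all 1 (R.card + 22) (ε / 2) hε2
  refine ⟨max X1 X2, fun X hX => ?_⟩
  have h := hX1 X ((le_max_left _ _).trans hX)
  have hbad := hX2 X ((le_max_right _ _).trans hX)
  -- lower bound for the good ones
  have hlow : (638 / 1000 : ℝ) *
      (((((arR R).sb X).filter fun T => (arR R).Gd 1 (R.card + 22) X T).filter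
        fun T => (k : ZMod 3) = 0 → beta R T ≠ 0).card : ℝ) ≤
      ∑ T ∈ ((arR R).sb X).filter fun T => (arR R).Gd 1 (R.card + 22) X T,
        (arR R).hh (PhiE R (k : ZMod 3)) (PP3.zz 600 X) (PP3.zz 600 X) T := by
    rw [← sum_filter_add_sum_filter_not (((arR R).sb X).filter fun T => (arR R).Gd 1 (R.card + 22) X T)
      (fun T => (k : ZMod 3) = 0 → beta R T ≠ 0)]
    have ha : (638 / 1000 : ℝ) *
        (((((arR R).sb X).filter fun T => (arR R).Gd 1 (R.card + 22) X T).filter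
          fun T => (k : ZMod 3) = 0 → beta R T ≠ 0).card : ℝ) ≤
        ∑ T ∈ (((arR R).sb X).filter fun T => (arR R).Gd 1 (R.card + 22) X T).filter
            (fun T => (k : ZMod 3) = 0 → beta R T ≠ 0),
          (arR R).hh (PhiE R (k : ZMod 3)) (PP3.zz 600 X) (PP3.zz 600 X) T := by
      rw [mul_comm, ← nsmul_eq_mul]
      refine card_nsmul_le_sum _ _ _ ?_
      intro T hT
      rw [mem_filter, mem_filter] at hT
      exact hh_ge hT.1.2 (k : ZMod 3) hT.2
    have hb : 0 ≤ ∑ T ∈ (((arR R).sb X).filter fun T => (arR R).Gd 1 (R.card + 22) X T).filter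
        (fun T => ¬ ((k : ZMod 3) = 0 → beta R T ≠ 0)),
        (arR R).hh (PhiE R (k : ZMod 3)) (PP3.zz 600 X) (PP3.zz 600 X) T :=
      sum_nonneg fun T _ => ((arR R).hh_mem (PhiE R (k : ZMod 3)) _ _ T).1
    linarith
  -- counting
  have hcount : ((((arR R).sb X).filter fun T => (k : ZMod 3) = 0 → beta R T ≠ 0).card : ℝ) ≤
      (((((arR R).sb X).filter fun T => (arR R).Gd 1 (R.card + 22) X T).filter
        fun T => (k : ZMod 3) = 0 → beta R T ≠ 0).card : ℝ) +
        ((((arR R).sb X).filter fun T => ¬ (arR R).Gd 1 (R.card + 22) X T).card : ℝ) := by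
    have hsub : (((arR R).sb X).filter fun T => (k : ZMod 3) = 0 → beta R T ≠ 0) ⊆
        ((((arR R).sb X).filter fun T => (arR R).Gd 1 (R.card + 22) X T).filter
          fun T => (k : ZMod 3) = 0 → beta R T ≠ 0) ∪
          (((arR R).sb X).filter fun T => ¬ (arR R).Gd 1 (R.card + 22) X T) := by
      intro T hT
      rw [mem_filter] at hT
      rw [mem_union, mem_filter, mem_filter, mem_filter]
      by_cases h : (arR R).Gd 1 (R.card + 22) X T
      · exact Or.inl ⟨⟨hT.1, h⟩, hT.2⟩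
      · exact Or.inr ⟨hT.1, h⟩
    have h4 := (card_le_card hsub).trans (card_union_le _ _)
    exact_mod_cast h4
  -- upper bound for the sum of the values
  have hval := p9_val R hu X
  have h11 := (abs_le.1 h).1
  have h13 : (638 / 1000 : ℝ) * ((((arR R).sb X).filter fun T => ¬ (arR R).Gd 1 (R.card + 22) X T).card : ℝ) ≤
      ε / 2 * X := by
    have h14 : (0 : ℝ) ≤ ((((arR R).sb X).filter fun T => ¬ (arR R).Gd 1 (R.card + 22) X T).card : ℝ) :=
      Nat.cast_nonneg _
    linarith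
  linarith

end CU
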